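import Pool.Agent.H9.UZ.Tar

/-! AM3: full names are determined by countable sets. -/

set_option linter.unusedVariables false

open Ordinal Order Set
open scoped ZFSet

namespace SE.UZ

open SF CAA

namespace Am3

theorem cln_tm (hAF : T_AF) (hBBa : T_BBa) : Tm ZFm (fun _ v => cln (v 0) (v 1) (v 2)) := by
  obtain ⟨-, -, -, -, -, -, -, -, -, -, -, hLe, hPos, -, -⟩ := hBBa
  have tP : ∀ {f g : (V → Prop) → (ℕ → V) → V}, Tm ZFm f → Tm ZFm g →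
      Tm ZFm (fun M v => Pos (f M v) (g M v)) := fun hf hg =>
    Tm.at2 (F := fun _ a b => Pos a b) hPos hf hg
  have tL : ∀ {f g : (V → Prop) → (ℕ → V) → V}, Tm ZFm f → Tm ZFm g →
      Dfb ZFm (fun M v => Le (f M v) (g M v)) := fun hf hg =>
    Dfb.at2 (P := fun _ a b => Le a b) hLe hf hg
  have h1 : Dfb ZFm (fun _ v => ∃ w ∈ v 5, Le (v 0) (fst w) ∧ snd (v 2) ⊆ snd w) :=
    (Dfb.bex (R := fun _ v => Le (v 1) (fst (v 0)) ∧ snd (v 3) ⊆ snd (v 0)) ktr_zfm (Tm.var 5)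
      ((tL (Tm.var 1) (Tm.fst (Tm.var 0))).and
        (Dfb.subset (Tm.snd (Tm.var 3)) (Tm.snd (Tm.var 0))))).congr fun M k v hv => Iff.rfl
  have h2 : Dfb ZFm (fun _ v => ∃ q' ∈ Pos (v 2) (v 3), Le q' (v 0) ∧
      ∃ w ∈ v 4, Le q' (fst w) ∧ snd (v 1) ⊆ snd w) :=
    (Dfb.bex (R := fun _ v => Le (v 0) (v 1) ∧ ∃ w ∈ v 5, Le (v 0) (fst w) ∧ snd (v 2) ⊆ snd w)
      ktr_zfm (tP (Tm.var 2) (Tm.var 3)) ((tL (Tm.var 0) (Tm.var 1)).and h1)).congr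
      fun M k v hv => Iff.rfl
  have h3 : Dfb ZFm (fun _ v => ∀ q ∈ Pos (v 1) (v 2), Le q (fst (v 0)) →
      ∃ q' ∈ Pos (v 1) (v 2), Le q' q ∧ ∃ w ∈ v 3, Le q' (fst w) ∧ snd (v 0) ⊆ snd w) :=
    (Dfb.ball (R := fun _ v => Le (v 0) (fst (v 1)) → ∃ q' ∈ Pos (v 2) (v 3), Le q' (v 0) ∧
      ∃ w ∈ v 4, Le q' (fst w) ∧ snd (v 1) ⊆ snd w)
      ktr_zfm (tP (Tm.var 1) (Tm.var 2)) ((tL (Tm.var 0) (Tm.fst (Tm.var 1))).imp h2)).congr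
      fun M k v hv => Iff.rfl
  exact (Tm.sep (R := fun _ v => ∀ q ∈ Pos (v 1) (v 2), Le q (fst (v 0)) →
      ∃ q' ∈ Pos (v 1) (v 2), Le q' q ∧ ∃ w ∈ v 3, Le q' (fst w) ∧ snd (v 0) ⊆ snd w)
    (f := fun _ v => ZFSet.prod (Pos (v 0) (v 1)) sq) h3
    (Tm.prod (tP (Tm.var 0) (Tm.var 1)) hAF.2.2.1)).congr fun M k v hv => rfl

/-- the conditions which decide the initial segment of length `n` -/
noncomputable def Fn (P Y n : V) : V := P.sep fun q => ∃ b ∈ sq, dm b = n ∧ ZFSet.pair q b ∈ Y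

theorem fn_tm (hAF : T_AF) : Tm ZFm (fun _ v => resS om fun n => Fn (v 0) (v 1) n) := by
  have h1 : Dfb ZFm (fun _ v => ∃ b ∈ sq, dm b = v 1 ∧ ZFSet.pair (v 0) b ∈ v 3) :=
    (Dfb.bex (R := fun _ v => dm (v 0) = v 2 ∧ ZFSet.pair (v 1) (v 0) ∈ v 4) ktr_zfm hAF.2.2.1
      ((Dfb.eq (Tm.dm (Tm.var 0)) (Tm.var 2)).and
        (Dfb.pairMem (Tm.var 1) (Tm.var 0) (Tm.var 4)))).congr fun M k v hv => Iff.rfl
  have h2 : Tm ZFm (fun _ v => Fn (v 1) (v 2) (v 0)) :=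
    (Tm.sep (R := fun _ v => ∃ b ∈ sq, dm b = v 1 ∧ ZFSet.pair (v 0) b ∈ v 3)
      (f := fun _ v => v 1) h1 (Tm.var 1)).congr fun M k v hv => rfl
  exact (Tm.resS (g := fun _ u => Fn (u 1) (u 2) (u 0)) Tm.om h2).congr fun M k v hv => rfl

/-- the part of `Y` with conditions in `X` -/
noncomputable def An (Y X : V) : V := Y.sep fun z => fst z ∈ X

theorem an_tm : Tm ZFm (fun _ v => An (v 0) (v 1)) :=
  (Tm.sep (R := fun _ v => fst (v 0) ∈ v 2) (f := fun _ v => v 0)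
    (Dfb.mem (Tm.fst (Tm.var 0)) (Tm.var 2)) (Tm.var 0)).congr fun M k v hv => rfl

theorem nS_mem {m n : ℕ} : nS m ∈ nS n ↔ m < n := by
  unfold nS
  rw [Ordinal.toZFSet_mem_toZFSet_iff]
  exact Nat.cast_lt

end Am3

open Am3 in
theorem pf_AM3 (hAC : T_AC) (hAF : T_AF) (hBBa : T_BBa) (hBE : T_BE) (hBJ : T_BJ) (hBQ : T_BQ) :
    T_AM3 := by
  refine ⟨cln_tm hAF hBBa, ?_⟩
  intro D hD ρ hρ hc Y hY hYn
  have kN : ZFm D.N := hD.zfc.toZFCm.toZFm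
  have hP : D.N (D.P ρ) := ((hBJ D hD).2.2.2.1 ρ hρ).1
  have hF : D.N (resS om fun n => Fn (D.P ρ) Y n) :=
    (fn_tm hAF).1 D.N kN (cons (D.P ρ) (cons Y fun _ => Y)) (In.cons (In.cons (fun _ => hY) hY) hP)
  have hFa : ∀ n ∈ om, app (resS om fun n => Fn (D.P ρ) Y n) n = Fn (D.P ρ) Y n :=
    fun n hn => app_resS hn
  obtain ⟨X0, hX0c, hX0, hX0p⟩ := hBQ D hD ρ hρ hc _ hF (by
    intro n hn
    rw [hFa n hn]
    intro q hq
    exact (ZFSet.mem_sep.1 hq).1)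
  have hX0N : D.N X0 := (hAC D.N kN).1 X0 hX0c
  have hA : D.N (An Y X0) :=
    an_tm.1 D.N kN (cons Y (cons X0 fun _ => X0)) (In.cons (In.cons (fun _ => hX0N) hX0N) hY)
  have hAsub : An Y X0 ⊆ ZFSet.prod X0 sq := by
    intro z hz
    obtain ⟨hz1, hz2⟩ := ZFSet.mem_sep.1 hz
    obtain ⟨q, hq, b, hb, rfl⟩ := hYn.sub z hz1
    rw [fst_pair] at hz2
    exact ZFSet.pair_mem_prod.2 ⟨hz2, hb⟩
  refine ⟨An Y X0, ?_, ?_, ?_⟩
  · exact (hAC D.N kN).2.1 _ _ hA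
      ((hAC D.N kN).2.2.1 X0 sq hX0c (hAF.2.2.2.1 D.N kN)) hAsub
  · intro z hz
    obtain ⟨q, hq, b, hb, rfl⟩ := hYn.sub z (ZFSet.mem_sep.1 hz).1
    exact ZFSet.pair_mem_prod.2 ⟨hq, hb⟩
  · ext z
    constructor
    · intro hz
      obtain ⟨q0, hq0, b, hb, rfl⟩ := hYn.sub z hz
      unfold cln
      rw [ZFSet.mem_sep]
      refine ⟨ZFSet.pair_mem_prod.2 ⟨hq0, hb⟩, ?_⟩
      rw [fst_pair, snd_pair]
      intro q hq hle
      have hqb := hYn.mono q0 b hz q hq hle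
      obtain ⟨n, hn⟩ := (hAF.1 b).1 hb
      have hdb : dm b = nS n := (hAF.2.2.2.2.1 n b hn).2.2.1
      have hnom : nS n ∈ om := mem_om.2 ⟨n, rfl⟩
      obtain ⟨q1, hq1X, hq1F, hcmp⟩ := hX0p (nS n) hnom q (by
        rw [hFa _ hnom]
        exact ZFSet.mem_sep.2 ⟨hq, b, hb, hdb, hqb⟩)
      rw [hFa _ hnom] at hq1F
      obtain ⟨hq1P, c, hcs, hdc, hq1c⟩ := ZFSet.mem_sep.1 hq1F
      obtain ⟨hj, hj1, hj2, -⟩ := (hBE D.L ρ q q1 hc hq hq1P).1 hcmp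
      have h1 := hYn.mono q1 c hq1c _ hj hj1
      have h2 := hYn.mono q b hqb _ hj hj2
      have hbc : b = c := hYn.uni _ b c h2 h1 (by rw [hdb, hdc])
      refine ⟨jn q1 q, hj, hj2, ZFSet.pair q1 c, ?_, ?_, ?_⟩
      · exact ZFSet.mem_sep.2 ⟨hq1c, by rw [fst_pair]; exact hq1X⟩
      · rw [fst_pair]; exact hj1
      · rw [snd_pair, hbc]
    · intro hz
      unfold cln at hz
      rw [ZFSet.mem_sep, ZFSet.mem_prod] at hz
      obtain ⟨⟨q0, hq0, b, hb, rfl⟩, h⟩ := hz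
      rw [fst_pair, snd_pair] at h
      apply hYn.ful q0 hq0 b hb
      intro q' hq' hle
      obtain ⟨q2, hq2, hle2, w, hw, hwl, hbw⟩ := h q' hq' hle
      obtain ⟨hw1, -⟩ := ZFSet.mem_sep.1 hw
      obtain ⟨r, hr, c, hcs, rfl⟩ := hYn.sub w hw1
      rw [fst_pair] at hwl
      rw [snd_pair] at hbw
      have h2c := hYn.mono r c hw1 q2 hq2 hwl
      refine ⟨q2, hq2, hle2, ?_⟩
      obtain ⟨n, hn⟩ := (hAF.1 b).1 hb
      obtain ⟨m, hm⟩ := (hAF.1 c).1 hcs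
      have hbe : b = rs c (nS n) := hAF.2.2.2.2.2.2.2.1 n b m c hn hm hbw
      have hnm : n ≤ m := ((hAF.2.2.2.2.2.2.1 n b m c hn hm).1 hbw).1
      have hdc : dm c = nS m := (hAF.2.2.2.2.1 m c hm).2.2.1
      rcases hnm.eq_or_lt with rfl | hlt
      · have : rs c (nS n) = c := (hAF.2.2.2.2.1 n c hm).2.2.2.2.1
        rw [hbe, this]
        exact h2c
      · rw [hbe]
        exact hYn.ini q2 c h2c (nS n) (by rw [hdc]; exact nS_mem.2 hlt)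

end SE.UZ
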