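import Pool.Agent.H45.UZ.TarA

/-! QRM: `R(ρ1) ∩ R(ρ2) = R(ρ1 ∩ ρ2)`. -/

set_option linter.unusedVariables false

open Ordinal Order Set
open scoped ZFSet

namespace SE.UZ

open SF

namespace Qrm

/-- pairs in the other order -/
noncomputable def flip (Y : V) : V := imS Y fun z => ZFSet.pair (snd z) (fst z)

theorem flip_tm : Tm ZFm (fun _ v => flip (v 0)) :=
  (Tm.image (f := fun _ v => v 0) (g := fun _ u => ZFSet.pair (snd (u 0)) (fst (u 0)))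
    (Tm.var 0) (Tm.pair (Tm.snd (Tm.var 0)) (Tm.fst (Tm.var 0)))).congr fun M k v hv => rfl

theorem mem_flip {L s Y : V} (hY : Nam L s Y) {q u : V} :
    ZFSet.pair u q ∈ flip Y ↔ ZFSet.pair q u ∈ Y := by
  unfold flip
  rw [mem_imS]
  constructor
  · rintro ⟨z, hz, he⟩
    obtain ⟨q', hq', b, hb, rfl⟩ := hY.sub z hz
    rw [fst_pair, snd_pair] at he
    obtain ⟨h1, h2⟩ := ZFSet.pair_inj.1 he
    rw [← h1, ← h2]
    exact hz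
  · intro h
    exact ⟨_, h, by rw [fst_pair, snd_pair]⟩

/-- the real with the initial segments decided by `O` -/
noncomputable def rl (G O : V) : V :=
  (⋃₀ (sq.sep fun b => ∃ q ∈ G, ZFSet.pair b q ∈ O) : ZFSet)

theorem rl_tm (hAF : T_AF) : Tm ZFm (fun _ v => rl (v 0) (v 1)) := by
  refine (Tm.sUnion (Tm.sep (R := fun _ v => ∃ q ∈ v 1, ZFSet.pair (v 0) q ∈ v 2)
    (f := fun _ _ => sq) ?_ hAF.2.2.1)).congr fun M k v hv => rfl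
  exact (Dfb.bex (R := fun _ v => ZFSet.pair (v 1) (v 0) ∈ v 3) ktr_zfm (Tm.var 1)
    (Dfb.pairMem (Tm.var 1) (Tm.var 0) (Tm.var 3))).congr fun M k v hv => Iff.rfl

end Qrm

open Qrm in
theorem t_qrm (hQF4 : T_QF4) (hBK : T_BK) (hBL : T_BL) (hBO : T_BO) (hBJ : T_BJ) (hBD : T_BD)
    (hBBb : T_BBb) (hDS : CAA.T_DS) (hAF : T_AF) : T_QRM := by
  intro D hD ρ G ρ1 ρ2 hρ hc hG hρ1 hρ2 h1 h2 hT1 hT2 x hx1 hx2
  have kN : ZFm D.N := hD.zfc.toZFCm.toZFm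
  obtain ⟨-, -, -, hPR, hJ⟩ := hBJ D hD
  have hc1 : Cld D.L ρ1 := fun i hi => ⟨(hc i (h1 hi)).1, hT1 i hi⟩
  have hc2 : Cld D.L ρ2 := fun i hi => ⟨(hc i (h2 hi)).1, hT2 i hi⟩
  have h12 : ρ1 ∩ ρ2 ⊆ ρ := fun i hi => h1 (ZFSet.mem_inter.1 hi).1
  have hT12 : Tr (ρ1 ∩ ρ2) := by
    intro i hi j hj
    rw [ZFSet.mem_inter] at hi ⊢
    exact ⟨hT1 i hi.1 hj, hT2 i hi.2 hj⟩
  have hc12 : Cld D.L (ρ1 ∩ ρ2) := fun i hi => ⟨(hc i (h12 hi)).1, hT12 i hi⟩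
  have hN12 : D.N (ρ1 ∩ ρ2) :=
    (Tm.inter (Tm.var 0) (Tm.var 1)).1 D.N kN (cons ρ1 (cons ρ2 fun _ => ρ2))
      (In.cons (In.cons (fun _ => hρ2) hρ2) hρ1)
  -- full names
  have nam : ∀ s, D.N s → s ⊆ ρ → Tr s → Cld D.L s → RR D s G x →
      ∃ Y, D.N Y ∧ Nam D.L s Y ∧ ev G Y = x ∧ ∀ G', D.Gn ρ G' → ∀ u,
        ((∃ q ∈ gs G' s, ZFSet.pair u q ∈ flip Y) ↔ u ∈ sq ∧ u ⊆ ev G' Y) := by
    intro s hs hsρ hTs hcs hx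
    obtain ⟨⟨τ, hτ, hxτ⟩, hrx⟩ := hx
    obtain ⟨Y, hY, hYn, hYv⟩ := (hBO D hD s hs hcs).1 τ hτ
    have hres := (hBL D hD ρ G hρ hc hG).2 s hs hsρ hTs
    have hv := (hYv (gs G s) hres.1).1 (by rw [← hxτ]; exact hrx)
    have hK := (hBK D hD ρ G hρ hc hG).1 s Y hs hsρ hTs hY hYn
    refine ⟨Y, hY, hYn, ?_, ?_⟩
    · rw [← hK.2.2.2.2.2 s (fun _ h => h), hv, ← hxτ]
    · intro G' hG' u
      have hres' := (hBL D hD ρ G' hρ hc hG').2 s hs hsρ hTs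
      have hK' := (hBK D hD ρ G' hρ hc hG').1 s Y hs hsρ hTs hY hYn
      have hK2 := (hBK D hD s (gs G' s) hs hcs hres'.1).1 s Y hs (fun _ h => h) hTs hY hYn
      have hev : ev (gs G' s) Y = ev G' Y := hK'.2.2.2.2.2 s fun _ h => h
      constructor
      · rintro ⟨q, hq, hqu⟩
        rw [mem_flip hYn] at hqu
        have hu : u ∈ sq := by
          obtain ⟨q', hq', b, hb, he⟩ := hYn.sub _ hqu
          rw [(ZFSet.pair_inj.1 he).2]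
          exact hb
        refine ⟨hu, ?_⟩
        rw [← hev]
        exact (hK2.2.2.1 u hu).2 ⟨q, hq, hqu⟩
      · rintro ⟨hu, huv⟩
        rw [← hev] at huv
        obtain ⟨q, hq, hqu⟩ := (hK2.2.2.1 u hu).1 huv
        exact ⟨q, hq, (mem_flip hYn).2 hqu⟩
  obtain ⟨Y1, hY1, hYn1, hYx1, hYf1⟩ := nam ρ1 hρ1 h1 hT1 hc1 hx1
  obtain ⟨Y2, hY2, hYn2, hYx2, hYf2⟩ := nam ρ2 hρ2 h2 hT2 hc2 hx2
  -- a condition which forces that the values agree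
  obtain ⟨p, hp, hpG, hforce⟩ : ∃ p ∈ D.P ρ, p ∈ G ∧ ∀ G', D.Gn ρ G' → p ∈ G' →
      ev G' Y1 = ev G' Y2 := by
    have hev : Tm ZFm (fun _ v => ev (v 0) (v 1)) := hBBb.2.2.2.2.1
    have hR : Dfb ZFm (fun _ v => ev (v 0) (v 1) = ev (v 0) (v 2)) :=
      Dfb.eq hev (Tm.at2 (F := fun _ a b => ev a b) hev (Tm.var 0) (Tm.var 2))
    obtain ⟨O, hO, hOp⟩ := hDS _ hR
    have hin : In D.N (cons Y1 (cons Y2 fun _ => Y2)) :=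
      In.cons (In.cons (fun _ => hY2) hY2) hY1
    obtain ⟨-, hgen, hfor⟩ := hOp D.N (D.P ρ) (D.R ρ) (cons Y1 (cons Y2 fun _ => Y2)) kN
      (hPR ρ hρ).1 (hPR ρ hρ).2 (hBD.2.2.2.2.2.2.2 D.L ρ) hin
    obtain ⟨p, hpG, hpO⟩ := (hgen G hG).1 (by
      show ev G Y1 = ev G Y2
      rw [hYx1, hYx2])
    have hpP : p ∈ D.P ρ := ((hJ ρ hρ hc).2 G hG).2.1.1 hpG
    exact ⟨p, hpP, hpG, fun G' hG' hpG' => (hfor hD.ctb p hpP).1 hpO G' hG' hpG'⟩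
  have hfN1 : D.N (flip Y1) := flip_tm.1 D.N kN (fun _ => Y1) fun _ => hY1
  have hfN2 : D.N (flip Y2) := flip_tm.1 D.N kN (fun _ => Y2) fun _ => hY2
  obtain ⟨O, hO, hOq, hOG⟩ := hQF4 D hD ρ ρ1 ρ2 hρ hc hρ1 hρ2 h1 h2 hT1 hT2 p hp
    (flip Y1) (flip Y2) hfN1 hfN2 (by
      intro u G' hG' hpG'
      rw [hYf1 G' hG' u, hYf2 G' hG' u, hforce G' hG' hpG'])
  -- the restriction to the intersection
  obtain ⟨hres, -⟩ := (hBL D hD ρ G hρ hc hG).2 (ρ1 ∩ ρ2) hN12 h12 hT12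
  obtain ⟨⟨hZ, hNW, hGW, -, -⟩, -⟩ := (hJ (ρ1 ∩ ρ2) hN12 hc12).2 _ hres
  have hxe : x = rl (gs G (ρ1 ∩ ρ2)) O := by
    have hK := (hBK D hD ρ G hρ hc hG).1 ρ1 Y1 hρ1 h1 hT1 hY1 hYn1
    conv_lhs => rw [← hYx1]
    unfold ev rl
    congr 1
    ext b
    rw [ZFSet.mem_sep, ZFSet.mem_sep]
    refine and_congr_right fun hb => ?_
    rw [hOG b G hG hpG, hYf1 G hG b, ← hK.2.2.1 b hb]
    exact ⟨fun h => ⟨hb, h⟩, fun h => h.2⟩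
  refine ⟨?_, hx1.2⟩
  rw [hxe]
  have hin : In (D.W (gs G (ρ1 ∩ ρ2))) (cons (gs G (ρ1 ∩ ρ2)) (cons O fun _ => O)) :=
    In.cons (In.cons (fun _ => hNW O hO) (hNW O hO)) hGW
  exact (rl_tm hAF).1 _ hZ.toZFCm.toZFm _ hin

end SE.UZ
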