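import Pool.Agent.H38.UZ.TarZ

/-! X3: a coding label for a pair which is not an entry. -/

set_option linter.unusedVariables false

open Ordinal Order Set
open scoped ZFSet

namespace SE.UZ

open SF

namespace X3a

/-- there is an entry for the values of the names `X`, `Y` -/
def EP (G h X Y : V) : Prop := ∃ z ∈ h, fst z ∈ G ∧ ev G (fst (snd z)) = ev G X ∧
  ev G (fst (snd (snd z))) = ev G Y

theorem ep_dfb (hBBb : T_BBb) : Dfb ZFm (fun _ v => EP (v 0) (v 1) (v 2) (v 3)) := by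
  have hev : Tm ZFm (fun _ v => ev (v 0) (v 1)) := hBBb.2.2.2.2.1
  have tE : ∀ {f g : (V → Prop) → (ℕ → V) → V}, Tm ZFm f → Tm ZFm g →
      Tm ZFm (fun M v => ev (f M v) (g M v)) := fun hf hg =>
    Tm.at2 (F := fun _ a b => ev a b) hev hf hg
  exact (Dfb.bex (R := fun _ v => fst (v 0) ∈ v 1 ∧ ev (v 1) (fst (snd (v 0))) = ev (v 1) (v 3) ∧
    ev (v 1) (fst (snd (snd (v 0)))) = ev (v 1) (v 4)) ktr_zfm (Tm.var 1)
    ((Dfb.mem (Tm.fst (Tm.var 0)) (Tm.var 1)).and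
      ((Dfb.eq (tE (Tm.var 1) (Tm.fst (Tm.snd (Tm.var 0)))) (tE (Tm.var 1) (Tm.var 3))).and
        (Dfb.eq (tE (Tm.var 1) (Tm.fst (Tm.snd (Tm.snd (Tm.var 0)))))
          (tE (Tm.var 1) (Tm.var 4)))))).congr fun M k v hv => Iff.rfl

theorem ep_iff {D : Cx} {ρ h : V} {σ : Ordinal.{0}} (hh : His D ρ h σ) (G X Y : V) :
    EP G h X Y ↔ ∃ e, Ent h G (ev G X) (ev G Y) e := by
  constructor
  · rintro ⟨z, hz, h1, h2, h3⟩
    obtain ⟨q, hq, X', Y', e, he, hX', hY', rfl⟩ := hh.m z hz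
    unfold ht at h1 h2 h3
    rw [fst_pair] at h1
    rw [snd_pair, fst_pair] at h2
    rw [snd_pair, snd_pair, fst_pair] at h3
    exact ⟨e, q, h1, X', Y', hz, h2, h3⟩
  · rintro ⟨e, q, hq, X', Y', hz, h2, h3⟩
    refine ⟨_, hz, ?_, ?_, ?_⟩
    · unfold ht; rw [fst_pair]; exact hq
    · unfold ht; rw [snd_pair, fst_pair]; exact h2
    · unfold ht; rw [snd_pair, snd_pair, fst_pair]; exact h3

end X3a

open X3a in
theorem pf_X3 (hZR : T_ZR) (hZW : T_ZW) (hPOC : T_POC) (hA4 : T_A) (hPSJ : T_PSJ) (hPWE : T_PWE)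
    (hRH : T_RH) (hBO : T_BO) (hAH : T_AH) (hBK : T_BK) (hBJ : T_BJ) (hBD : T_BD)
    (hBBb : T_BBb) (hDS : CAA.T_DS) : T_X3 := by
  intro D κ b hA hOk ξ hξ q hq htm X Y hX hY
  have kN : ZFm D.N := hA.ok.zfc.toZFCm.toZFm
  set B := fst q with hBdef
  set h := snd q with hhdef
  set r := b.rho D ξ with hr
  have hW : b.Wd D r B h := hq.w
  have w := (hPWE b D r B h).1 hW
  obtain ⟨⟨zB, zo, zcs, zH, zN, zTr, zCl, zBN, zhN, zhis, zvw⟩, zG⟩ := hZW D κ b hA hOk r B h hW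
  obtain ⟨-, zr2, -, -, -, zr6, -, zr8⟩ := hZR D κ b hA hOk
  have hξH : ξ ∈ D.H := (zr2 ξ hξ).1
  have hrN : D.N r.toZFSet := (zr6 ξ hξ).2.2.1
  have h0H : (∅ : V) ∈ D.H := hA.ok.zfH.mempty
  have hevBK : ∀ G ρ, D.N ρ → Cld D.L ρ → b.u B ⊆ ρ → D.Gn ρ G → ∀ T, D.N T →
      Nam D.L (b.u B) T → Rl (ev G T) ∧ ev (gs G (b.u B)) T = ev G T := by
    intro G ρ hρ hc hs hG T hT hTn
    have := (hBK D hA.ok ρ G hρ hc hG).1 (b.u B) T zN hs zTr hT hTn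
    exact ⟨this.1, this.2.2.2.2.2 (b.u B) fun _ h => h⟩
  -- the set which decides
  obtain ⟨O, hON, hO⟩ : ∃ O, D.N O ∧ ∀ G, D.Gn (b.u B) G →
      ((∃ e, Ent h G (ev G X) (ev G Y) e) ↔ ∃ p ∈ G, p ∈ O) := by
    obtain ⟨Of, hOf, hOp⟩ := hDS _ (ep_dfb hBBb)
    have hPR := (hBJ D hA.ok).2.2.2.1 (b.u B) zN
    have hin : In D.N (cons h (cons X (cons Y fun _ => Y))) :=
      In.cons (In.cons (In.cons (fun _ => hY.1) hY.1) hX.1) zhN
    obtain ⟨-, hgen, -⟩ := hOp D.N (D.P (b.u B)) (D.R (b.u B))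
      (cons h (cons X (cons Y fun _ => Y))) kN hPR.1 hPR.2 (hBD.2.2.2.2.2.2.2 D.L (b.u B)) hin
    refine ⟨_, hOf.1 D.N kN _ ((hin.cons hPR.2).cons hPR.1), fun G hG => ?_⟩
    rw [← hgen G hG, ← ep_iff zhis]
    exact Iff.rfl
  -- the name
  obtain ⟨-, bo2, bo3, bo4, -, -⟩ := hBO D hA.ok (b.u B) zN zCl
  obtain ⟨Z1, hZ1, hZ1n, hZ1v⟩ := bo3 X Y hX.1 hY.1 hX.2 hY.2
  obtain ⟨hk1, hk2, hk3⟩ := bo4 0
  obtain ⟨Z, hZ, hZn, hZv⟩ := bo2 (knm D.L (b.u B) 0) Z1 O hk1 hZ1 hON hk2 hZ1n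
  obtain ⟨B', i, hle, hobs, hi, hiB, -, hkd, htmi, hvwi, hlS, hval, hrest⟩ :=
    hPOC D κ hA b hOk B zo Z hZ hZn b.l (b.u B) (Or.inr (Or.inr ⟨rfl, rfl⟩)) ξ hξH zH ∅ h0H
  have hcs' := hOk.cs B' hobs.o
  have hN' : D.N (b.u B') := kN.trans _ hA.ok.hN _ hcs'.h
  have hsub : b.u B ⊆ b.u B' := (hOk.leO _ _ hle).2.2
  -- the value of the label `i`
  have hvi : ∀ G, D.Gn (b.u B') G →
      ((∃ e, Ent h G (ev G X) (ev G Y) e) → ev G (lZ i) = kc 0) ∧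
      ((¬ ∃ e, Ent h G (ev G X) (ev G Y) e) → ev G (lZ i) = prl (ev G X) (ev G Y)) := by
    intro G hG
    obtain ⟨g1, -, -, g4, -⟩ := zG (b.u B') hN' hcs'.c hsub G hG
    obtain ⟨-, eX⟩ := hevBK G _ hN' hcs'.c hsub hG X hX.1 hX.2
    obtain ⟨-, eY⟩ := hevBK G _ hN' hcs'.c hsub hG Y hY.1 hY.2
    obtain ⟨-, eZ⟩ := hevBK G _ hN' hcs'.c hsub hG Z hZ hZn
    have hEx : (∃ e, Ent h G (ev G X) (ev G Y) e) ↔ ∃ p ∈ gs G (b.u B), p ∈ O := by
      rw [← hO _ g1]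
      refine exists_congr fun e => ?_
      rw [g4, eX, eY]
    constructor
    · intro hE
      rw [hval G hG, ← eZ, (hZv _ g1).1 (hEx.1 hE), hk3 _ g1]
    · intro hE
      rw [hval G hG, ← eZ, (hZv _ g1).2 (fun hc => hE (hEx.2 hc)), hZ1v _ g1, eX, eY]
  have hnotCo : ∀ j ∈ b.u B', b.Co j → j ∈ b.u B ∨ j = i := by
    intro j hj hc
    by_contra hcon
    push Not at hcon
    obtain ⟨⟨e, he, hke⟩, -⟩ := hrest j hj hcon.1 hcon.2
    unfold BS.Co at hc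
    rw [hc, nS_inj] at hke
    omega
  have hsj : b.sj D (b.Wd D) r (tm i) = r := by
    rw [htmi]
    exact ((hRH D κ b hA hOk).2.2.2.2.1 ξ hξ ξ).2.1 (ZFSet.mem_irrefl ξ)
  -- the amalgamation family with one member
  have kI : D.N ({∅} : V) := by
    have := (Tm.sing (f := fun _ v => v 0) (Tm.var 0)).1 D.N kN (fun _ => ∅) fun _ => kN.mempty
    exact this
  have kC : ∀ x, D.N x → D.N (resS ({∅} : V) fun _ => x) := by
    intro x hx
    have := (Tm.resS (f := fun _ v => v 0) (g := fun _ u => u 2) (Tm.var 0) (Tm.var 2)).1 D.N kN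
      (cons ({∅} : V) (cons x fun _ => x)) (In.cons (In.cons (fun _ => hx) hx) kI)
    exact this
  have hap : ∀ x v : V, v ∈ ({∅} : V) → app (resS ({∅} : V) fun _ => x) v = x :=
    fun x v hv => app_resS hv
  have h0 : (∅ : V) ∈ ({∅} : V) := ZFSet.mem_singleton.2 rfl
  have hAF : b.AF D r {∅} (resS ({∅} : V) fun _ => B) (resS ({∅} : V) fun _ => h)
      (fun _ => r) B' := by
    refine ⟨kI, kC B zBN, kC h zhN, kC _ hrN, hobs, fun v _ => le_refl r, ?_, ?_, ?_, ?_, ?_⟩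
    · intro v hv
      rw [hap B v hv, hap h v hv]
      exact hW
    · intro v hv
      rw [hap B v hv]
      exact hle
    · intro G hG v hv v' hv' X' hX' y e he he'
      rw [hap h v hv, hap h v' hv']
    · intro j hj hc
      refine ⟨∅, h0, ?_⟩
      rw [hap B ∅ h0, hap h ∅ h0]
      rcases hnotCo j hj hc with hjB | rfl
      · refine ⟨(zvw j hjB hc).1, (hPSJ b D (b.Wd D)).2.2.2.2.2.2.1 r (tm j), w.w0 j hjB hc, ?_⟩
        intro G hG X' y e he hE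
        obtain ⟨-, -, -, -, -, -, -, -, -, -, g11, -⟩ := zG (b.u B') hN' hcs'.c hsub G hG
        exact (g11 j hjB hc X' y).2.2.1 e hE
      · rw [hvwi, hsj]
        refine ⟨fun _ h => h, le_refl r, ⟨h, zhis, ?_⟩, ?_⟩
        · intro G hG X' hX' y e
          obtain ⟨-, -, g3, -⟩ := zG (b.u B) zN zCl (fun _ h => h) G hG
          exact ⟨fun hE => ⟨hE, (g3 X' y e hE).2.2⟩, fun hE => hE.1⟩
        · intro G hG X' y e he hE heq
          obtain ⟨-, -, g3, -⟩ := zG (b.u B') hN' hcs'.c hsub G hG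
          obtain ⟨hX'r, hyr, -⟩ := g3 X' y e hE
          by_cases hEx : ∃ e, Ent h G (ev G X) (ev G Y) e
          · rw [(hvi G hG).1 hEx] at heq
            exact hAH.2.2.2.2.2 X' y hX'r.2 hyr.2 heq.symm
          · rw [(hvi G hG).2 hEx] at heq
            obtain ⟨hXr, -⟩ := hevBK G _ hN' hcs'.c hsub hG X hX.1 hX.2
            obtain ⟨hYr, -⟩ := hevBK G _ hN' hcs'.c hsub hG Y hY.1 hY.2
            obtain ⟨e1, e2⟩ := hAH.2.1 _ _ _ _ hXr hYr hX'r.2 hyr.2 heq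
            apply hEx
            refine ⟨e, ?_⟩
            rw [e1, e2]
            exact hE
    · intro G hG j hj hc v hv X' y e hE hLs htmj
      rw [hap h v hv] at hE
      obtain ⟨-, -, g3, -, -, -, -, -, -, -, g11, -⟩ := zG (b.u B') hN' hcs'.c hsub G hG
      rcases hnotCo j hj hc with hjB | rfl
      · exact (g11 j hjB hc X' y).2.2.2 e hE hLs htmj
      · exfalso
        rw [htmi] at htmj
        obtain ⟨ζ, hζ, -, hζ2⟩ := zr8 ξ hξ e ξ hLs (g3 X' y e hE).2.2 htmj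
        rcases ZFSet.mem_insert_iff.1 hζ2 with h1 | h1
        · rw [h1] at hζ
          exact ZFSet.mem_irrefl _ hζ
        · exact ZFSet.mem_asymm hζ h1
  obtain ⟨hp, hWp, hLW⟩ := hA4 D κ b r ⟨hA, hOk, hrN⟩ _ _ _ _ _ hAF
  have hLW0 := hLW ∅ h0
  rw [hap B ∅ h0, hap h ∅ h0] at hLW0
  refine ⟨ZFSet.pair B' hp, X, Y, ZFSet.pair B' hp, hX, hY, ?_, ?_, rfl, i, ?_, hkd, ?_⟩
  · refine ⟨?_, ?_⟩
    · rw [fst_pair, snd_pair]
    · rw [fst_pair, snd_pair]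
      exact hWp
  · unfold BS.Lr
    rw [fst_pair, snd_pair]
    exact hLW0
  · rw [fst_pair]
    exact hi
  · rw [fst_pair]
    intro G hG hE
    exact (hvi G hG).2 hE

end SE.UZ
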