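import Pool.Agent.H38.UZ.TarZ

/-! Y1: compatible families: bounds, the condition (a1). -/

set_option linter.unusedVariables false

open Ordinal Order Set
open scoped ZFSet

namespace SE.UZ

open SF

theorem pf_Y1 (hPWE : T_PWE) (hZE : T_ZE) (hPOB : T_POB) : T_Y1 := by
  intro D κ b hA hOk I B h s hI hB hh hW hC
  have kN : ZFm D.N := hA.ok.zfc.toZFCm.toZFm
  have w : ∀ v ∈ I, b.Iw D (b.Wd D) (s v) (app B v) (app h v) := fun v hv =>
    (hPWE b D (s v) (app B v) (app h v)).1 (hW v hv)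
  constructor
  · intro hIH Z hZ
    have hAg : b.Ag D I B := by
      refine ⟨hB, hIH, fun v hv => (w v hv).wo.o.o, ?_⟩
      intro v hv u hu
      obtain ⟨C, h0, θ, hC1, -, hC3, hC4⟩ := hC v hv u hu
      exact ⟨C, hC3.le, hC4.le, hC1⟩
    obtain ⟨-, -, h3⟩ := hPOB D κ hA b hOk I B hAg (fun v hv => (w v hv).wo.o)
    obtain ⟨Bp, h4, h5, h6⟩ := h3 Z hZ
    exact ⟨Bp, h4, fun v hv => (h5 v hv).1, h6⟩
  · intro Bp hBp hle G hG v hv u hu X hX y e he1 he2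
    have hcs := hOk.cs Bp hBp.o
    have hN : D.N (b.u Bp) := kN.trans _ hA.ok.hN _ hcs.h
    obtain ⟨C, h0, θ, hC1, hC2, hC3, hC4⟩ := hC v hv u hu
    rw [← hC1] at hX
    have e1 := (hZE D κ b hA hOk (min (s v) (s u)) θ (s v) C h0 (app B v) (app h v) hC2
      (w v hv).wo.hs hC3).2 (b.u Bp) hN hcs.c (hOk.leO _ _ (hle v hv)).2.2 G hG
    have e2 := (hZE D κ b hA hOk (min (s v) (s u)) θ (s u) C h0 (app B u) (app h u) hC2
      (w u hu).wo.hs hC4).2 (b.u Bp) hN hcs.c (hOk.leO _ _ (hle u hu)).2.2 G hG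
    rw [← e1.2.2.2.1 X hX y e (lt_min he1 he2), ← e2.2.2.2.1 X hX y e (lt_min he1 he2)]

end SE.UZ
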