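import Pool.Agent.H38.UZ.TarZ

/-! ZW: worlds and generic filters on larger sets of labels. -/

set_option linter.unusedVariables false

open Ordinal Order Set
open scoped ZFSet

namespace SE.UZ

open SF

namespace Zw

theorem dm_sub {L ρ p : V} (hp : p ∈ Pos L ρ) : dm p ⊆ ρ := by
  intro i hi
  obtain ⟨y, hy⟩ := mem_dm.1 hi
  unfold Pos Fs at hp
  rw [ZFSet.mem_sep, ZFSet.mem_sep, ZFSet.mem_powerset] at hp
  exact (ZFSet.pair_mem_prod.1 (hp.1.1 hy)).1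

end Zw

open Zw in
theorem pf_ZW (hPWE : T_PWE) (hPHA : T_PHA) (hPOA : T_POA) (hQRN : T_QRN) (hBJ : T_BJ)
    (hBL : T_BL) (hBK : T_BK) : T_ZW := by
  intro D κ b hA hOk σ B h hW
  have w := (hPWE b D σ B h).1 hW
  have hB : B ∈ b.Ob := w.wo.o.o
  have hcs := hOk.cs B hB
  have kN : ZFm D.N := hA.ok.zfc.toZFCm.toZFm
  have hHN : ∀ x ∈ D.H, D.N x := (hBJ D hA.ok).2.2.1
  have huN : D.N (b.u B) := hHN _ hcs.h
  have hTr : Tr (b.u B) := fun i hi => (hcs.c i hi).2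
  have hv : ∀ j ∈ b.u B, b.Co j → vw j ⊆ b.u B ∧ D.N (vw j) ∧ Tr (vw j) ∧ lS j ⊆ vw j ∧
      j ∉ vw j := by
    intro j hj hc
    obtain ⟨-, -, h3⟩ := hPOA D κ hA b hOk B w.wo.o
    obtain ⟨-, h4, h5, h6, h7, -, -⟩ := h3 j hj hc
    exact ⟨h4, h6, h7, (w.wo.o.v j hj hc).1, h5⟩
  refine ⟨⟨hB, w.wo.o, hcs, hcs.h, huN, hTr, hcs.c, kN.trans _ hOk.nO B hB, w.wo.hs.n, w.wo.hs,
    hv⟩, ?_⟩
  intro ρ hρ hc hsub G hG
  obtain ⟨-, hL⟩ := hBL D hA.ok ρ G hρ hc hG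
  obtain ⟨hG1, -, -, hgm, -, -, hgg⟩ := hL (b.u B) huN hsub hTr
  obtain ⟨q1, q2, q3, -, -, -, -, q8, q9, q10, q11, q12, q13, q14, q15⟩ :=
    hQRN D hA.ok ρ G (b.u B) hρ hc hG huN hsub hTr
  obtain ⟨pE, pD⟩ := (hPHA D hA.ok (b.u B) ρ h σ huN hcs.c hρ hc hsub w.wo.hs).1 G hG
  have hEnt : ∀ X y e, Ent h G X y e ↔ Ent h (gs G (b.u B)) X y e := fun X y e => (pE X y e).1
  have hER : ∀ X y e, Ent h G X y e → RR D (b.u B) G X ∧ RR D (b.u B) G y ∧ e < σ :=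
    fun X y e hE => ⟨((pE X y e).2 hE).1, ((pE X y e).2 hE).2.1, ((pE X y e).2 hE).2.2.1⟩
  have hPt : ∀ X, b.Pt B G X ↔ b.Pt B (gs G (b.u B)) X := by
    intro X
    unfold BS.Pt
    refine exists_congr fun i => and_congr_right fun hi => ?_
    rw [(q15 i hi).1]
  have hSe : ∀ a x, b.Se B G a x ↔ b.Se B (gs G (b.u B)) a x := by
    intro a x
    have hval : ∀ Y, D.N Y → Nam D.L (b.u B) Y → ev (gs G (b.u B)) Y = ev G Y := fun Y hY hYn =>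
      ((hBK D hA.ok ρ G hρ hc hG).1 (b.u B) Y huN hsub hTr hY hYn).2.2.2.2.2 (b.u B) fun _ h => h
    constructor
    · rintro ⟨p, hp, a', x', hm, rfl, rfl⟩
      obtain ⟨-, h2, h3, h4⟩ := hOk.sc B p a' x' hm
      refine ⟨p, (hgm p).2 ⟨hp, dm_sub h2⟩, a', x', hm, hval a' h3.1 h3.2, hval x' h4.1 h4.2⟩
    · rintro ⟨p, hp, a', x', hm, rfl, rfl⟩
      obtain ⟨-, h2, h3, h4⟩ := hOk.sc B p a' x' hm
      exact ⟨p, ((hgm p).1 hp).1, a', x', hm, (hval a' h3.1 h3.2).symm, (hval x' h4.1 h4.2).symm⟩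
  have hKil : ∀ X y, b.Kil D B G X y ↔ b.Kil D B (gs G (b.u B)) X y := by
    intro X y
    unfold BS.Kil BS.Ss
    refine exists_congr fun a => exists_congr fun x => and_congr_right fun _ =>
      and_congr_right fun _ => and_congr_right fun _ => exists_congr fun v => ?_
    rw [q2 v, hSe]
  have hRs : ∀ s, D.N s → s ⊆ b.u B → Tr s →
      (∀ x, RR D s G x ↔ RR D s (gs G (b.u B)) x) ∧ (∀ x, RR D s G x → RR D (b.u B) G x) := by
    intro s hs hsB hTs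
    constructor
    · intro x
      unfold RR
      rw [hgg s hsB]
    · intro x hx
      have hq := hQRN D hA.ok ρ G s hρ hc hG hs (fun i hi => hsub (hsB hi)) hTs
      exact hq.2.2.2.2.2.2.2.1 (b.u B) huN hsB hsub hTr x hx
  refine ⟨hG1, q3, hER, hEnt, pD, ?_, hPt, hKil, hRs, fun j hj => ⟨(q15 j hj).2.1, (q15 j hj).1⟩,
    ?_, ?_, ?_⟩
  · intro X y y' e e' h1 h2
    exact w.wo.f _ hG1 X y y' e e' ((hEnt X y e).1 h1) ((hEnt X y' e').1 h2)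
  · intro j hj hcj X y
    obtain ⟨v1, v2, v3, v4, v5⟩ := hv j hj hcj
    obtain ⟨r1, r2⟩ := hRs (vw j) v2 v1 v3
    have hSn : Sn D G X y j ↔ Sn D (gs G (b.u B)) X y j := by
      unfold Sn
      rw [r1 X, r1 y]
    refine ⟨hSn, fun hs => ⟨r2 X hs.1, r2 y hs.2⟩, ?_, ?_⟩
    · intro e hE
      rw [← (q15 j hj).2.1]
      exact w.w1 j hj hcj _ hG1 X y e ((hEnt X y e).1 hE)
    · intro e hE hLs htm hs
      exact (w.w3 e (hER X y e hE).2.2 hLs _ hG1 X y ((hEnt X y e).1 hE)).2 j hj hcj htm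
        (hSn.1 hs)
  · intro X y e hE
    refine ⟨w.w2' e (hER X y e hE).2.2 _ hG1 X y ((hEnt X y e).1 hE), ?_⟩
    intro hLs hp
    exact (w.w3 e (hER X y e hE).2.2 hLs _ hG1 X y ((hEnt X y e).1 hE)).1 ((hPt X).1 hp)
  · intro C hC hCB X hX
    have hcsC := hOk.cs C hC
    have huC : D.N (b.u C) := hHN _ hcsC.h
    have hTrC : Tr (b.u C) := fun i hi => (hcsC.c i hi).2
    have hq := hQRN D hA.ok ρ G (b.u C) hρ hc hG huC (fun i hi => hsub (hCB hi)) hTrC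
    constructor
    · rintro ⟨i, hi, hk, rfl⟩
      exact ⟨i, hq.2.2.2.2.2.2.2.2.2.2.2.2.1 i (hsub hi) hX, hk, rfl⟩
    · rintro ⟨i, hi, hk, rfl⟩
      exact ⟨i, hCB hi, hk, rfl⟩

end SE.UZ
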