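import Pool.Agent.H75.UZ.TarKO

/-! KO10: the improvements form a closed set. -/

set_option linter.unusedVariables false

open Ordinal Order Set
open scoped ZFSet

namespace SE.UZ

open SF CAA

theorem ko10_app_empty {f s : V} (h : s ∉ dm f) : app f s = ∅ := by
  unfold app
  have h1 : ((⋃₀ (⋃₀ f : ZFSet) : ZFSet).sep fun y => ZFSet.pair s y ∈ f) = ∅ := by
    rw [ZFSet.eq_empty]
    intro y hy
    rw [ZFSet.mem_sep] at hy
    exact h (mem_dm.2 ⟨y, hy.2⟩)
  rw [h1, ZFSet.sUnion_empty]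

/-- values of a sequence of reals which converges to `x` -/
theorem ko10_val (hAG : T_AG) {x : V} (hx : Rl x) (X : ℕ → V) (hX : ∀ n, Rl (X n))
    (he : ∀ n, rs (X n) (nS n) = rs x (nS n)) (h : V) :
    ∀ᶠ n in Filter.atTop, app (X n) h = app x h := by
  by_cases ho : h ∈ om
  · obtain ⟨m, rfl⟩ := mem_om.1 ho
    filter_upwards [Filter.eventually_gt_atTop m] with n hn
    have h1 := ((hAG.1 (X n) (hX n)).2.2.1 n).2.2.2 m hn
    have h2 := ((hAG.1 x hx).2.2.1 n).2.2.2 m hn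
    rw [← h1, ← h2, he n]
  · refine Filter.Eventually.of_forall fun n => ?_
    rw [ko10_app_empty (by rw [(hAG.1 (X n) (hX n)).2.1]; exact ho),
      ko10_app_empty (by rw [(hAG.1 x hx).2.1]; exact ho)]

theorem ko10_rs (hAG : T_AG) {x : V} (hx : Rl x) {z : V} (hz : Rl z) {n k : ℕ} (hk : k ≤ n)
    (he : rs z (nS n) = rs x (nS n)) : rs z (nS k) = rs x (nS k) := by
  have h1 := (hAG.1 z hz).2.2.2 k n hk
  have h2 := (hAG.1 x hx).2.2.2 k n hk
  rw [← h1, ← h2, he]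

theorem ko10_to (hKO4 : T_KO4) (hAF : T_AF) (hAG : T_AG) {a x y : V} (ha : Rl a) (hx : Rl x)
    (hy : Rl y) (X Y : ℕ → V) (hX : ∀ n, Rl (X n)) (hY : ∀ n, Rl (Y n))
    (heX : ∀ n, rs (X n) (nS n) = rs x (nS n)) (heY : ∀ n, rs (Y n) (nS n) = rs y (nS n)) (b : V) :
    ∀ᶠ n in Filter.atTop, (b ∈ TO a (prl (X n) (Y n)) ↔ b ∈ TO a (prl x y)) := by
  by_cases hb : b ∈ sq
  · obtain ⟨k, hk⟩ := (hAF.1 b).1 hb
    filter_upwards [Filter.eventually_ge_atTop k] with n hn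
    exact hKO4.2.1 a x y (X n) (Y n) k b ha hx hy (hX n) (hY n) hk
      (ko10_rs hAG hx (hX n) hn (heX n)) (ko10_rs hAG hy (hY n) hn (heY n))
  · refine Filter.Eventually.of_forall fun n => ?_
    have hno : ∀ z : V, b ∉ TO a z := by
      intro z hz
      unfold TO at hz
      rw [ZFSet.mem_sep] at hz
      exact hb hz.1
    exact ⟨fun h => absurd h (hno _), fun h => absurd h (hno _)⟩

theorem t_ko10 (hKO4 : T_KO4) (hAF : T_AF) (hAG : T_AG) : T_KO10 := by
  intro e j a x y y' w hKE ha hx hy hy' hw hni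
  by_contra hcon
  push Not at hcon
  choose X Y Y' Z hX hY hY' hZ eX eY eY' eZ hI using hcon
  apply hni
  have vW : ∀ h : V, ∀ᶠ n in Filter.atTop, Gw j (Z n) h = Gw j w h := fun h =>
    ko10_val hAG hw Z hZ eZ (app j h)
  have vY : ∀ h : V, ∀ᶠ n in Filter.atTop, app (Y n) h = app y h := fun h =>
    ko10_val hAG hy Y hY eY h
  have vY' : ∀ h : V, ∀ᶠ n in Filter.atTop, app (Y' n) h = app y' h := fun h =>
    ko10_val hAG hy' Y' hY' eY' h
  have tY : ∀ b c : V, ∀ᶠ n in Filter.atTop, (Er a (X n) (Y n) b c ↔ Er a x y b c) := by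
    intro b c
    filter_upwards [ko10_to hKO4 hAF hAG ha hx hy X Y hX hY eX eY b,
      ko10_to hKO4 hAF hAG ha hx hy X Y hX hY eX eY c] with n h1 h2
    unfold Er
    rw [h1, h2]
  have tY' : ∀ b c : V, ∀ᶠ n in Filter.atTop, (Er a (X n) (Y' n) b c ↔ Er a x y' b c) := by
    intro b c
    filter_upwards [ko10_to hKO4 hAF hAG ha hx hy' X Y' hX hY' eX eY' b,
      ko10_to hKO4 hAF hAG ha hx hy' X Y' hX hY' eX eY' c] with n h1 h2
    unfold Er
    rw [h1, h2]
  constructor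
  · obtain ⟨n, h0⟩ := (vW ∅).exists
    rw [← h0]
    exact (hI n).n
  · intro u hu t ht u' hu' hR hE
    have ev : ∀ᶠ n in Filter.atTop, Rw j (Z n) u t = Rw j w u t ∧
        CwK j (Z n) u t u' = CwK j w u t u' ∧
        Rw j (Z n) u' (CwK j w u t u') = Rw j w u' (CwK j w u t u') ∧
        (Er a (X n) (Y' n) u' u ↔ Er a x y' u' u) ∧
        (Er a (X n) (Y n) (CwK j w u t u') t ↔ Er a x y (CwK j w u t u') t) := by
      filter_upwards [vW (ZFSet.pair ∅ (ZFSet.pair u t)),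
        vW (ZFSet.pair (nS 1) (ZFSet.pair u (ZFSet.pair t u'))),
        vW (ZFSet.pair ∅ (ZFSet.pair u' (CwK j w u t u'))), tY' u' u,
        tY (CwK j w u t u') t] with n h1 h2 h3 h4 h5
      refine ⟨?_, h2, ?_, h4, h5⟩
      · unfold Rw; rw [h1]
      · unfold Rw; rw [h3]
    obtain ⟨n, h1, h2, h3, h4, h5⟩ := ev.exists
    have := (hI n).s u hu t ht u' hu' (by rw [h1]; exact hR) (h4.2 hE)
    rw [h2, h3, h5] at this
    exact this
  · intro i hi hf
    have ev : ∀ᶠ n in Filter.atTop, Gw j (Z n) ∅ = Gw j w ∅ ∧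
        Rw j (Z n) (snd (app e i)) (snd (app e i)) = Rw j w (snd (app e i)) (snd (app e i)) := by
      filter_upwards [vW ∅, vW (ZFSet.pair ∅ (ZFSet.pair (snd (app e i)) (snd (app e i))))]
        with n h1 h2
      refine ⟨h1, ?_⟩
      unfold Rw; rw [h2]
    obtain ⟨n, h1, h2⟩ := ev.exists
    rw [← h2]
    exact (hI n).e1 i (by rw [h1]; exact hi) hf
  · intro i hi hf
    obtain ⟨n, h1, h2, h3⟩ := ((vW ∅).and ((vY (snd (app e i))).and
      (vY' (snd (app e i))))).exists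
    rw [← h2, ← h3]
    exact (hI n).e2 i (by rw [h1]; exact hi) hf
  · intro hf
    have ev : ∀ᶠ n in Filter.atTop, Gw j (Z n) ∅ = Gw j w ∅ ∧
        Gw j (Z n) (ZFSet.pair (nS 2) ∅) = Gw j w (ZFSet.pair (nS 2) ∅) ∧
        (Er a (X n) (Y n) (Gw j w (ZFSet.pair (nS 2) ∅)) (snd (app e (Gw j w ∅))) ↔
          Er a x y (Gw j w (ZFSet.pair (nS 2) ∅)) (snd (app e (Gw j w ∅)))) ∧
        Rw j (Z n) (snd (app e (Gw j w ∅))) (Gw j w (ZFSet.pair (nS 2) ∅)) =
          Rw j w (snd (app e (Gw j w ∅))) (Gw j w (ZFSet.pair (nS 2) ∅)) := by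
      filter_upwards [vW ∅, vW (ZFSet.pair (nS 2) ∅),
        tY (Gw j w (ZFSet.pair (nS 2) ∅)) (snd (app e (Gw j w ∅))),
        vW (ZFSet.pair ∅ (ZFSet.pair (snd (app e (Gw j w ∅)))
          (Gw j w (ZFSet.pair (nS 2) ∅))))] with n h1 h2 h3 h4
      refine ⟨h1, h2, h3, ?_⟩
      unfold Rw; rw [h4]
    obtain ⟨n, h1, h2, h3, h4⟩ := ev.exists
    have := (hI n).l1 (by rw [h1]; exact hf)
    rw [h1, h2, h3, h4] at this
    exact this
  · intro hf
    obtain ⟨n, h1, h2, h3⟩ := ((vW ∅).and ((vY (snd (app e (Gw j w ∅)))).and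
      (vY' (snd (app e (Gw j w ∅)))))).exists
    have := (hI n).l2 (by rw [h1]; exact hf)
    rw [h1, h2, h3] at this
    exact this

end SE.UZ
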