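import Pool.Agent.H75.UZ.TarKO

/-! KO3: the collapse of a tree. -/

set_option linter.unusedVariables false

open Ordinal Order Set
open scoped ZFSet

namespace SE.UZ

open SF CAA

theorem ko3_app_empty {f s : V} (h : s ∉ dm f) : app f s = ∅ := by
  unfold app
  have h1 : ((⋃₀ (⋃₀ f : ZFSet) : ZFSet).sep fun y => ZFSet.pair s y ∈ f) = ∅ := by
    rw [ZFSet.eq_empty]
    intro y hy
    rw [ZFSet.mem_sep] at hy
    exact h (mem_dm.2 ⟨y, hy.2⟩)
  rw [h1, ZFSet.sUnion_empty]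

theorem ko3_mem_EO {b c : V} : ZFSet.pair b c ∈ EO ↔ b ∈ sq ∧ c ∈ sq ∧ c ⊆ b ∧ b ≠ c := by
  unfold EO
  rw [ZFSet.mem_sep, ZFSet.pair_mem_prod, fst_pair, snd_pair]
  tauto

theorem ko3_EO_trans {b c d : V} (h1 : ZFSet.pair b c ∈ EO) (h2 : ZFSet.pair c d ∈ EO) :
    ZFSet.pair b d ∈ EO := by
  rw [ko3_mem_EO] at *
  obtain ⟨hb, hc, hcb, hne⟩ := h1
  obtain ⟨-, hd, hdc, hne2⟩ := h2
  refine ⟨hb, hd, fun x hx => hcb (hdc hx), ?_⟩
  rintro rfl
  apply hne
  ext x
  exact ⟨fun h => hdc h, fun h => hcb h⟩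

theorem ko3_out {T c s : V} (h : Cps T EO c) (hs : s ∉ T) : app c s = ∅ :=
  ko3_app_empty (by rw [h.dm]; exact hs)

theorem ko3_mem {T c s y : V} (h : Cps T EO c) :
    y ∈ app c s ↔ s ∈ T ∧ ∃ z ∈ T, ZFSet.pair z s ∈ EO ∧ y = app c z := by
  by_cases hs : s ∈ T
  · rw [h.eq s hs]
    exact ⟨fun h => ⟨hs, h⟩, fun h => h.2⟩
  · rw [ko3_out h hs]
    constructor
    · intro h; exact absurd h (ZFSet.notMem_empty _)
    · intro h; exact absurd h.1 hs

theorem ko3_ord {T c : V} (h : Cps T EO c) (s : V) : IsOrd (app c s) := by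
  have key : ∀ x : V, ∀ s, app c s = x → IsOrd x := by
    intro x
    induction x using ZFSet.inductionOn with
    | _ x ih =>
      rintro s rfl
      rw [isOrd_iff]
      constructor
      · intro y hy w hw
        obtain ⟨hs, z, hz, hzs, rfl⟩ := (ko3_mem h).1 hy
        obtain ⟨-, z', hz', hz'z, rfl⟩ := (ko3_mem h).1 hw
        exact (ko3_mem h).2 ⟨hs, z', hz', ko3_EO_trans hz'z hzs, rfl⟩
      · intro y hy
        obtain ⟨hs, z, hz, hzs, rfl⟩ := (ko3_mem h).1 hy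
        exact ((isOrd_iff _).1 (ih _ hy z rfl)).1
  exact key _ s rfl

theorem ko3_rkf {T c : V} (h : Cps T EO c) : Rkf T EO c where
  svl := h.svl
  dm := h.dm
  ord := fun x hx => ko3_ord h x
  lt := fun x hx y hy hxy => (ko3_mem h).2 ⟨hy, x, hx, hxy, rfl⟩

theorem ko3_uniq {T c c' : V} (h : Cps T EO c) (h' : Cps T EO c') (s : V) :
    app c s = app c' s := by
  have key : ∀ x : V, ∀ s, app c s = x → app c s = app c' s := by
    intro x
    induction x using ZFSet.inductionOn with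
    | _ x ih =>
      rintro s rfl
      ext y
      rw [ko3_mem h, ko3_mem h']
      refine and_congr_right fun hs => ?_
      constructor
      · rintro ⟨z, hz, hzs, rfl⟩
        exact ⟨z, hz, hzs, ih _ ((ko3_mem h).2 ⟨hs, z, hz, hzs, rfl⟩) z rfl⟩
      · rintro ⟨z, hz, hzs, rfl⟩
        exact ⟨z, hz, hzs, (ih _ ((ko3_mem h).2 ⟨hs, z, hz, hzs, rfl⟩) z rfl).symm⟩
  exact key _ s rfl

theorem ko3_sub {T c f : V} (h : Cps T EO c) (hf : Rkf T EO f) (s : V) :
    app c s ⊆ app f s := by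
  have key : ∀ x : V, ∀ s, app c s = x → app c s ⊆ app f s := by
    intro x
    induction x using ZFSet.inductionOn with
    | _ x ih =>
      rintro s rfl
      intro y hy
      obtain ⟨hs, z, hz, hzs, rfl⟩ := (ko3_mem h).1 hy
      have h1 := ih _ hy z rfl
      have h2 := hf.lt z hz s hs hzs
      obtain ⟨a, ha⟩ := ko3_ord h z
      obtain ⟨b, hb⟩ := hf.ord z hz
      obtain ⟨g, hg⟩ := hf.ord s hs
      rw [ha, hb] at h1
      rw [hb, hg] at h2
      rw [ha, hg]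
      rw [Ordinal.toZFSet_mem_toZFSet_iff] at h2 ⊢
      rw [Ordinal.toZFSet_subset_toZFSet_iff] at h1
      exact lt_of_le_of_lt h1 h2
  exact key _ s rfl

theorem t_ko3 (hKC : T_KC) (hKA : T_KA) (hKI : T_KI) : T_KO3 := by
  refine ⟨fun T c h s => ko3_ord h s, fun T c h s hs => ko3_out h hs, fun T c h => ko3_rkf h,
    fun T c c' h h' s => ko3_uniq h h' s, fun T c f h hf s => ko3_sub h hf s, ?_⟩
  intro W k a z ha hra hz hrz
  have hT : W (TO a z) := by
    have := hKC.1.1 W k.toZFm (cons a (cons z fun _ => z)) (In.cons (In.cons (fun _ => hz) hz) ha)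
    exact this
  have hE : W EO := hKC.2.1.1 W k.toZFm (fun _ => z) (fun _ => hz)
  rw [hKC.2.2.2 W k.toZFm a z ha hra hz hrz, hKA W k (TO a z) EO hT hE]
  constructor
  · rintro ⟨f, hf, hr⟩
    exact hKI W k.toZFm (TO a z) EO f hT hE hf hr
  · rintro ⟨c, hc, h⟩
    exact ⟨c, hc, ko3_rkf h⟩

end SE.UZ
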